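import Pool.Agent.N873.AL.Stm
import Pool.Agent.N873.UT.SEL
import Pool.Agent.N875.X15.Conv
import Pool.Agent.N875.X15.Crit

/-!
# Project AL (helper873), part CX: comparison of the groups (helper314)
-/

set_option autoImplicit false

open scoped Classical

namespace Pool.Agent.N873.AL

open Finset
open Pool.Agent.N873.UT (SA SB)

namespace CX

open Pool.Agent.N875.X15 (even_val val_zero val_one not_dvd_of_even sq_cancel sq_trans sq_of_zmod
  dvd_of_primes)
open Pool.Agent.N873.UT.SEL (comb sqf_uniq)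

/-- the support of a squarefree integer -/
lemma bound {F : ℕ} (hF : F ≠ 0) {d : ℤ} (hd : Squarefree d)
    (h : ∀ p : ℕ, p.Prime → (p : ℤ) ∣ d → p ∣ F) : -(F : ℤ) ≤ d ∧ d ≤ F := by
  have h1 : d.natAbs ∣ F := dvd_of_primes (Int.squarefree_natAbs.2 hd) fun p hp hpd =>
    h p hp (Int.natCast_dvd.2 hpd)
  have h2 := Nat.le_of_dvd (Nat.pos_of_ne_zero hF) h1
  omega

lemma isqf (m : ℤ) (hm : m ≠ 0) : ∃ f r : ℤ, Squarefree f ∧ r ≠ 0 ∧ m = f * r ^ 2 := by
  obtain ⟨a, b, h1, h2⟩ := Nat.sq_mul_squarefree m.natAbs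
  have hb : b ≠ 0 := by
    rintro rfl
    apply hm
    rw [← Int.natAbs_eq_zero, ← h1]
    ring
  have ha : (b : ℤ) ≠ 0 := by exact_mod_cast hb
  have h3 : ((b : ℤ)) ^ 2 * a = |m| := by
    rw [Int.abs_eq_natAbs, ← h1]
    push_cast
    ring
  rcases abs_choice m with h4 | h4
  · exact ⟨a, b, Int.squarefree_natCast.2 h2, ha, by rw [← h4, ← h3]; ring⟩
  · refine ⟨-a, b, ?_, ha, ?_⟩
    · rw [← Int.squarefree_natAbs, Int.natAbs_neg, Int.natAbs_natCast]
      exact h2
    · rw [h4] at h3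
      linarith

lemma zmod_mul {p : ℕ} [Fact p.Prime] {a b : ZMod p} (ha : ¬ IsSquare a) (hb : ¬ IsSquare b) :
    IsSquare (a * b) := by
  have ha0 : a ≠ 0 := by
    rintro rfl
    exact ha ⟨0, by ring⟩
  have hb0 : b ≠ 0 := by
    rintro rfl
    exact hb ⟨0, by ring⟩
  rw [← quadraticChar_one_iff_isSquare (mul_ne_zero ha0 hb0), map_mul,
    quadraticChar_neg_one_iff_not_isSquare.2 ha, quadraticChar_neg_one_iff_not_isSquare.2 hb]
  norm_num

section loc

variable {p : ℕ} [hp : Fact p.Prime]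

/-- a unit in the class of `d` or of `d c` -/
lemma unit_of {c d : ℤ} (hc : Squarefree c) (hpc : (p : ℤ) ∣ c) (hd : Squarefree d) :
    ∃ D : ℤ, ¬ (p : ℤ) ∣ D ∧
      (IsSquare ((D : ℚ_[p]) * d) ∨ IsSquare ((D : ℚ_[p]) * ((d : ℚ_[p]) * c))) := by
  by_cases h : (p : ℤ) ∣ d
  · have hu : ¬ IsUnit (p : ℤ) := by
      rw [Int.isUnit_iff]
      have := hp.out.two_le
      omega
    have hpr : Prime (p : ℤ) := Nat.prime_iff_prime_int.1 hp.out
    obtain ⟨d', rfl⟩ := h
    obtain ⟨c', rfl⟩ := hpc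
    refine ⟨d' * c', ?_, Or.inr ⟨(p : ℚ_[p]) * d' * c', ?_⟩⟩
    · intro h1
      rcases hpr.dvd_or_dvd h1 with ⟨k, rfl⟩ | ⟨k, rfl⟩
      · exact hu (hd _ ⟨k, by ring⟩)
      · exact hu (hc _ ⟨k, by ring⟩)
    · push_cast
      ring
  · exact ⟨d, h, Or.inl ⟨(d : ℚ_[p]), rfl⟩⟩

/-- there are only two classes -/
lemma two_cl (hp2 : p ≠ 2) {c d e : ℤ} (hc : Squarefree c) (hpc : (p : ℤ) ∣ c)
    (hd : Squarefree d) (he : Squarefree e)
    (h1 : ¬ (IsSquare (d : ℚ_[p]) ∨ IsSquare ((d : ℚ_[p]) * c)))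
    (h2 : ¬ (IsSquare (e : ℚ_[p]) ∨ IsSquare ((e : ℚ_[p]) * c))) :
    IsSquare ((d : ℚ_[p]) * e) ∨ IsSquare ((d : ℚ_[p]) * e * c) := by
  obtain ⟨D, hD, hDd⟩ := unit_of (p := p) hc hpc hd
  obtain ⟨E, hE, hEe⟩ := unit_of (p := p) hc hpc he
  have nz : ∀ {x : ℤ}, ¬ (p : ℤ) ∣ x → (x : ℚ_[p]) ≠ 0 := by
    intro x hx h0
    apply hx
    have : x = 0 := by exact_mod_cast h0
    rw [this]
    exact dvd_zero _
  have hD0 := nz hD
  have hE0 := nz hE
  have hc0 : (c : ℚ_[p]) ≠ 0 := by exact_mod_cast hc.ne_zero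
  have key : ∀ {x X : ℤ}, ¬ (p : ℤ) ∣ X →
      (IsSquare ((X : ℚ_[p]) * x) ∨ IsSquare ((X : ℚ_[p]) * ((x : ℚ_[p]) * c))) →
      ¬ (IsSquare (x : ℚ_[p]) ∨ IsSquare ((x : ℚ_[p]) * c)) → ¬ IsSquare ((X : ℤ) : ZMod p) := by
    intro x X hX hXx hx hsq
    have h3 := sq_of_zmod hp2 hX hsq
    apply hx
    rcases hXx with h4 | h4
    · exact Or.inl (sq_cancel (nz hX) h3 h4)
    · exact Or.inr (sq_cancel (nz hX) h3 h4)
  have h3 := zmod_mul (key hD hDd h1) (key hE hEe h2)
  have hDE : ¬ (p : ℤ) ∣ D * E := by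
    intro h4
    rcases (Nat.prime_iff_prime_int.1 hp.out).dvd_or_dvd h4 with h5 | h5
    · exact hD h5
    · exact hE h5
  have h4 : IsSquare (((D * E : ℤ)) : ℚ_[p]) := sq_of_zmod hp2 hDE (by push_cast; exact h3)
  have h5 := nz hDE
  rcases hDd with h6 | h6 <;> rcases hEe with h7 | h7
  · left
    refine sq_cancel h5 h4 ?_
    have := h6.mul h7
    have e1 : (((D * E : ℤ)) : ℚ_[p]) * ((d : ℚ_[p]) * e) = (D * d) * (E * e) := by
      push_cast
      ring
    rwa [e1]
  · right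
    refine sq_cancel h5 h4 ?_
    have := h6.mul h7
    have e1 : (((D * E : ℤ)) : ℚ_[p]) * ((d : ℚ_[p]) * e * c) = (D * d) * (E * (e * c)) := by
      push_cast
      ring
    rwa [e1]
  · right
    refine sq_cancel h5 h4 ?_
    have := h6.mul h7
    have e1 : (((D * E : ℤ)) : ℚ_[p]) * ((d : ℚ_[p]) * e * c) = (D * (d * c)) * (E * e) := by
      push_cast
      ring
    rwa [e1]
  · left
    refine sq_cancel (mul_ne_zero h5 (mul_ne_zero hc0 hc0)) (h4.mul ⟨(c : ℚ_[p]), rfl⟩) ?_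
    have := h6.mul h7
    have e1 : (((D * E : ℤ)) : ℚ_[p]) * ((c : ℚ_[p]) * c) * ((d : ℚ_[p]) * e) =
        (D * (d * c)) * (E * (e * c)) := by
      push_cast
      ring
    rwa [e1]

end loc

/-- the large group -/
def GX (S : Finset ℕ) (n : ℕ) (c : ℤ) : Set ℤ := {d | Squarefree d ∧
  (∀ p : ℕ, p.Prime → (p : ℤ) ∣ d → p ∣ n ∨ p ∈ S) ∧
  ∀ (p : ℕ) [Fact p.Prime], p ∣ n → p ∉ S →
    IsSquare (d : ℚ_[p]) ∨ IsSquare ((d : ℚ_[p]) * (c : ℚ_[p]))}

/-- the small group -/
def GY (n : ℕ) (c : ℤ) (Q : ℤ → Prop) : Set ℤ := {d | Squarefree d ∧ Q d ∧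
  (∀ p : ℕ, p.Prime → (p : ℤ) ∣ d → p ∣ n) ∧
  ∀ (p : ℕ) [Fact p.Prime], p ∣ n → IsSquare (d : ℚ_[p]) ∨ IsSquare ((d : ℚ_[p]) * (c : ℚ_[p]))}

/-- the local class -/
def Cl (n : ℕ) (c : ℤ) (d : ℤ) (p : ℕ) : Prop :=
  if p ∣ n then ∃ _ : Fact p.Prime, IsSquare (d : ℚ_[p]) ∨ IsSquare ((d : ℚ_[p]) * (c : ℚ_[p]))
  else (p : ℤ) ∣ d

lemma mem_GY {S : Finset ℕ} {n : ℕ} {c : ℤ} {Q : ℤ → Prop} (hn : n % 4 = 3) (hc : Squarefree c)
    (hcn : ∀ p : ℕ, p ∣ n → (p : ℤ) ∣ c) {d e f r : ℤ} (hd : d ∈ GX S n c) (he : e ∈ GX S n c)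
    (hf : Squarefree f) (hr : r ≠ 0) (hdef : d * e = f * r ^ 2)
    (hcl : ∀ p ∈ S, Cl n c d p ↔ Cl n c e p) (hQ : Q f) : f ∈ GY n c Q := by
  obtain ⟨d1, d2, d3⟩ := hd
  obtain ⟨e1, e2, e3⟩ := he
  have hsq : ∀ (p : ℕ) [Fact p.Prime], IsSquare ((d : ℚ_[p]) * e * f) := by
    intro p _
    refine ⟨(f : ℚ_[p]) * r, ?_⟩
    have h1 : (d : ℚ_[p]) * e = f * r ^ 2 := by exact_mod_cast congrArg (Int.cast : ℤ → ℚ_[p]) hdef
    rw [h1]
    ring
  refine ⟨hf, hQ, ?_, ?_⟩
  · intro p hp hpf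
    have : Fact p.Prime := ⟨hp⟩
    by_contra hpn
    have hpr : Prime (p : ℤ) := Nat.prime_iff_prime_int.1 hp
    have h1 : (p : ℤ) ∣ d * e := by
      rw [hdef]
      exact Dvd.dvd.mul_right hpf _
    have hboth : (p : ℤ) ∣ d ∧ (p : ℤ) ∣ e := by
      rcases hpr.dvd_or_dvd h1 with h2 | h2
      · have h3 : p ∈ S := (d2 p hp h2).resolve_left hpn
        have h4 := hcl p h3
        unfold Cl at h4
        rw [if_neg hpn, if_neg hpn] at h4
        exact ⟨h2, h4.1 h2⟩
      · have h3 : p ∈ S := (e2 p hp h2).resolve_left hpn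
        have h4 := hcl p h3
        unfold Cl at h4
        rw [if_neg hpn, if_neg hpn] at h4
        exact ⟨h4.2 h2, h2⟩
    have hd0 : (d : ℚ_[p]) ≠ 0 := by exact_mod_cast d1.ne_zero
    have he0 : (e : ℚ_[p]) ≠ 0 := by exact_mod_cast e1.ne_zero
    refine not_dvd_of_even (mul_ne_zero hd0 he0) ?_ hf (hsq p) hpf
    rw [Padic.valuation_mul hd0 he0, val_one hboth.1 d1, val_one hboth.2 e1]
    exact ⟨1, by norm_num⟩
  · intro p hp hpn
    have hd0 : (d : ℚ_[p]) ≠ 0 := by exact_mod_cast d1.ne_zero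
    have he0 : (e : ℚ_[p]) ≠ 0 := by exact_mod_cast e1.ne_zero
    have hc0 : (c : ℚ_[p]) ≠ 0 := by exact_mod_cast hc.ne_zero
    by_cases hpS : p ∈ S
    · have h1 := hcl p hpS
      unfold Cl at h1
      rw [if_pos hpn, if_pos hpn] at h1
      by_cases h2 : IsSquare (d : ℚ_[p]) ∨ IsSquare ((d : ℚ_[p]) * (c : ℚ_[p]))
      · obtain ⟨_, h3⟩ := h1.1 ⟨hp, h2⟩
        exact comb hc0 hd0 he0 h2 h3 (hsq p)
      · have h3 : ¬ (IsSquare (e : ℚ_[p]) ∨ IsSquare ((e : ℚ_[p]) * (c : ℚ_[p]))) := by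
          intro h3
          obtain ⟨_, h4⟩ := h1.2 ⟨hp, h3⟩
          exact h2 h4
        have hp2 : p ≠ 2 := by
          rintro rfl
          omega
        have h4 := two_cl hp2 hc (hcn p hpn) d1 e1 h2 h3
        have h5 : IsSquare ((1 : ℚ_[p]) * ((d : ℚ_[p]) * e) * ((d : ℚ_[p]) * e * ((d : ℚ_[p]) * e) * f)) := by
          have := (hsq p).mul (IsSquare.mul_self ((d : ℚ_[p]) * e))
          have e6 : (1 : ℚ_[p]) * ((d : ℚ_[p]) * e) * ((d : ℚ_[p]) * e * ((d : ℚ_[p]) * e) * f) =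
            (d : ℚ_[p]) * e * f * ((d : ℚ_[p]) * e * ((d : ℚ_[p]) * e)) := by ring
          rwa [e6]
        have h6 := comb hc0 one_ne_zero (mul_ne_zero hd0 he0) (Or.inl (IsSquare.one)) h4 h5
        have hde := mul_ne_zero hd0 he0
        rcases h6 with h6 | h6
        · exact Or.inl (sq_cancel (mul_ne_zero hde hde) (IsSquare.mul_self _) h6)
        · right
          refine sq_cancel (mul_ne_zero hde hde) (IsSquare.mul_self _) ?_
          rwa [← mul_assoc]
    · exact comb hc0 hd0 he0 (d3 p hpn hpS) (e3 p hpn hpS) (hsq p)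

theorem gen (n : ℕ) (hn : Squarefree n) (hn4 : n % 4 = 3) (S : Finset ℕ)
    (hS : ∀ p ∈ S, p.Prime) (h2S : 2 ∈ S) (c : ℤ) (hc : Squarefree c)
    (hcn : ∀ p : ℕ, p ∣ n → (p : ℤ) ∣ c) (P Q : ℤ → Prop)
    (hPQ : ∀ d e f r : ℤ, Squarefree d → Squarefree e → Squarefree f → r ≠ 0 →
      ((2 : ℤ) ∣ d ↔ (2 : ℤ) ∣ e) → (P d ↔ P e) → d * e = f * r ^ 2 → Q f) :
    (GX S n c).Finite ∧ (GX S n c).ncard ≤ 2 ^ (S.card + 1) * (GY n c Q).ncard := by
  have hF : n * ∏ p ∈ S, p ≠ 0 :=
    mul_ne_zero hn.ne_zero (Finset.prod_ne_zero_iff.2 fun p hp => (hS p hp).ne_zero)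
  have hX : (GX S n c).Finite := by
    refine (Set.finite_Icc (-((n * ∏ p ∈ S, p : ℕ) : ℤ)) ((n * ∏ p ∈ S, p : ℕ) : ℤ)).subset ?_
    rintro d ⟨d1, d2, -⟩
    refine bound hF d1 fun p hp hpd => ?_
    rcases d2 p hp hpd with h | h
    · exact Dvd.dvd.mul_right h _
    · exact Dvd.dvd.mul_left (Finset.dvd_prod_of_mem _ h) _
  have hY : (GY n c Q).Finite := by
    refine (Set.finite_Icc (-(n : ℤ)) (n : ℤ)).subset ?_
    rintro d ⟨d1, -, d2, -⟩
    exact bound hn.ne_zero d1 d2
  refine ⟨hX, ?_⟩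
  have hsq : ∀ d e : ℤ, ∃ f r : ℤ, d * e ≠ 0 → (Squarefree f ∧ r ≠ 0 ∧ d * e = f * r ^ 2) := by
    intro d e
    by_cases h : d * e = 0
    · exact ⟨1, 1, fun h' => absurd h h'⟩
    · obtain ⟨f, r, h1⟩ := isqf _ h
      exact ⟨f, r, fun _ => h1⟩
  choose F R hFR using hsq
  rw [Set.ncard_eq_toFinset_card _ hX, Set.ncard_eq_toFinset_card _ hY]
  let Φ : ℤ → Finset ℕ × Bool := fun d => (S.filter fun p => Cl n c d p, decide (P d))
  have h1 := Finset.card_le_mul_card_image_of_maps_to (f := Φ) (s := hX.toFinset)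
    (t := S.powerset ×ˢ (Finset.univ : Finset Bool)) (fun d _ => by
      rw [Finset.mem_product]
      exact ⟨Finset.mem_powerset.2 (Finset.filter_subset _ _), Finset.mem_univ _⟩)
    hY.toFinset.card (by
      intro t _
      rcases Finset.eq_empty_or_nonempty (hX.toFinset.filter fun a => Φ a = t) with h | ⟨d0, hd0⟩
      · rw [h, Finset.card_empty]
        exact Nat.zero_le _
      · rw [Finset.mem_filter, Set.Finite.mem_toFinset] at hd0
        obtain ⟨hd0, ht⟩ := hd0
        have ne : ∀ {d : ℤ}, d ∈ GX S n c → d * d0 ≠ 0 := fun hd =>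
          mul_ne_zero hd.1.ne_zero hd0.1.ne_zero
        refine Finset.card_le_card_of_injOn (fun d => F d d0) ?_ ?_
        · intro d hd
          rw [Finset.mem_coe, Finset.mem_filter, Set.Finite.mem_toFinset] at hd
          obtain ⟨hd, htd⟩ := hd
          rw [Finset.mem_coe, Set.Finite.mem_toFinset]
          obtain ⟨f1, f2, f3⟩ := hFR d d0 (ne hd)
          rw [← ht] at htd
          have hcl : ∀ p ∈ S, Cl n c d p ↔ Cl n c d0 p := by
            intro p hp
            have h3 : (S.filter fun p => Cl n c d p) = S.filter fun p => Cl n c d0 p :=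
              congrArg Prod.fst htd
            have h4 : p ∈ (S.filter fun p => Cl n c d p) ↔ p ∈ S.filter fun p => Cl n c d0 p := by
              rw [h3]
            rw [Finset.mem_filter, Finset.mem_filter] at h4
            constructor
            · intro h5
              exact (h4.1 ⟨hp, h5⟩).2
            · intro h5
              exact (h4.2 ⟨hp, h5⟩).2
          refine mem_GY hn4 hc hcn hd hd0 f1 f2 f3 hcl ?_
          refine hPQ d d0 _ _ hd.1 hd0.1 f1 f2 ?_ ?_ f3
          · have h5 := hcl 2 h2S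
            unfold Cl at h5
            have h6 : ¬ 2 ∣ n := by omega
            rw [if_neg h6, if_neg h6] at h5
            exact_mod_cast h5
          · have h5 : decide (P d) = decide (P d0) := congrArg Prod.snd htd
            exact decide_eq_decide.1 h5
        · intro d hd d' hd' hdd
          rw [Finset.mem_coe, Finset.mem_filter, Set.Finite.mem_toFinset] at hd hd'
          obtain ⟨-, -, f3⟩ := hFR d d0 (ne hd.1)
          obtain ⟨-, -, f3'⟩ := hFR d' d0 (ne hd'.1)
          have hdd' : F d d0 = F d' d0 := hdd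
          rw [← hdd'] at f3'
          have hd00 : (d0 : ℚ) ≠ 0 := by exact_mod_cast hd0.1.ne_zero
          have hsq : IsSquare (((d * d' : ℤ)) : ℚ) := by
            refine ⟨(F d d0 : ℚ) * R d d0 * R d' d0 / d0, ?_⟩
            have g3 : (d : ℚ) * d0 = F d d0 * (R d d0 : ℚ) ^ 2 := by exact_mod_cast f3
            have g3' : (d' : ℚ) * d0 = F d d0 * (R d' d0 : ℚ) ^ 2 := by exact_mod_cast f3'
            have h4 : (d : ℚ) * d' * ((d0 : ℚ) * d0) =
                (F d d0 * (R d d0 : ℚ) ^ 2) * (F d d0 * (R d' d0 : ℚ) ^ 2) := by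
              rw [← g3, ← g3']
              ring
            push_cast
            field_simp
            linear_combination h4
          rw [Rat.isSquare_intCast_iff] at hsq
          obtain ⟨s, hs⟩ := hsq
          exact sqf_uniq hd.1.1 hd'.1.1 hs)
  rw [Finset.card_product, Finset.card_powerset, Finset.card_univ, Fintype.card_bool] at h1
  rw [pow_succ, mul_comm]
  exact h1

end CX

open CX in
theorem t_CX : S_CX := by
  intro n hn hn4 S hS h2S
  constructor
  · have h := gen n hn hn4 S hS h2S (n : ℤ) (Int.squarefree_natCast.2 hn)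
      (fun p hp => Int.natCast_dvd_natCast.2 hp) (fun d => 0 < d) (fun d => 0 < d) (by
        intro d e f r hd he hf hr _ hde h
        have h1 : 0 < d * e := by
          rcases lt_trichotomy d 0 with h2 | h2 | h2
          · have h3 : ¬ 0 < e := fun h4 => absurd (hde.2 h4) (by omega)
            have h5 := he.ne_zero
            exact mul_pos_of_neg_of_neg h2 (by omega)
          · exact absurd h2 hd.ne_zero
          · exact mul_pos h2 (hde.1 h2)
        rw [h] at h1
        exact (mul_pos_iff_of_pos_right (by positivity : (0 : ℤ) < r ^ 2)).1 h1)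
    have e1 : GX S n (n : ℤ) = SAx S n := by
      unfold GX SAx
      simp only [Int.cast_natCast]
    have e2 : GY n (n : ℤ) (fun d => 0 < d) = SA n := by
      unfold GY SA
      simp only [Int.cast_natCast]
    rw [e1, e2] at h
    exact h
  · have h := gen n hn hn4 S hS h2S (-(n : ℤ)) (by
        rw [← Int.squarefree_natAbs, Int.natAbs_neg, Int.natAbs_natCast]
        exact hn)
      (fun p hp => (dvd_neg).2 (Int.natCast_dvd_natCast.2 hp))
      (fun d => (if (2 : ℤ) ∣ d then d / 2 else d) % 4 = 1) (fun d => d % 4 = 1) (by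
        intro d e f r hd he hf hr h2 hde h
        have sq4 : ∀ {x : ℤ}, Squarefree x → ¬ (4 : ℤ) ∣ x := by
          intro x hx h4
          have := hx 2 (by norm_num; exact h4)
          rw [Int.isUnit_iff] at this
          omega
        have fin : ∀ {D E s : ℤ}, D % 2 = 1 → E % 2 = 1 → (D % 4 = 1 ↔ E % 4 = 1) →
            D * E = f * s ^ 2 → f % 4 = 1 := by
          intro D E s hD hE hDE h
          have h5 : (D * E) % 4 = 1 := by
            have c1 : D % 4 = 1 ∨ D % 4 = 3 := by omega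
            have c2 : E % 4 = 1 ∨ E % 4 = 3 := by omega
            rcases c1 with c1 | c1 <;> rcases c2 with c2 | c2
            · rw [Int.mul_emod, c1, c2]; norm_num
            · omega
            · omega
            · rw [Int.mul_emod, c1, c2]; norm_num
          rw [h, Int.mul_emod] at h5
          have h6 : s % 2 = 0 ∨ s % 2 = 1 := by omega
          rcases h6 with h6 | h6
          · obtain ⟨t, ht⟩ : (2 : ℤ) ∣ s := Int.dvd_of_emod_eq_zero h6
            have h7 : s ^ 2 % 4 = 0 := by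
              rw [ht]
              have : (2 * t) ^ 2 = 4 * t ^ 2 := by ring
              rw [this]
              omega
            rw [h7] at h5
            norm_num at h5
          · obtain ⟨t, ht⟩ : ∃ t, s = 2 * t + 1 := ⟨s / 2, by omega⟩
            have h7 : s ^ 2 % 4 = 1 := by
              rw [ht]
              have : (2 * t + 1) ^ 2 = 4 * (t ^ 2 + t) + 1 := by ring
              rw [this]
              omega
            rw [h7, mul_one, Int.emod_emod_of_dvd _ (dvd_refl 4)] at h5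
            exact h5
        by_cases hd2 : (2 : ℤ) ∣ d
        · have he2 := h2.1 hd2
          simp only [if_pos hd2, if_pos he2] at hde
          obtain ⟨D, rfl⟩ := hd2
          obtain ⟨E, rfl⟩ := he2
          have g1 : 2 * D / 2 = D := by omega
          have g2 : 2 * E / 2 = E := by omega
          rw [g1, g2] at hde
          have g3 : D % 2 = 1 := by
            by_contra hcon
            exact sq4 hd (by omega)
          have g4 : E % 2 = 1 := by
            by_contra hcon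
            exact sq4 he (by omega)
          have g5 : r % 2 = 0 := by
            by_contra hcon
            obtain ⟨t, rfl⟩ : ∃ t, r = 2 * t + 1 := ⟨r / 2, by omega⟩
            apply sq4 hf
            refine ⟨D * E - f * (t ^ 2 + t), ?_⟩
            linear_combination -h
          obtain ⟨t, rfl⟩ : (2 : ℤ) ∣ r := Int.dvd_of_emod_eq_zero g5
          refine fin g3 g4 hde (s := t) ?_
          have : 4 * (D * E) = 4 * (f * t ^ 2) := by linear_combination h
          omega
        · have he2 : ¬ (2 : ℤ) ∣ e := fun h' => hd2 (h2.2 h')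
          simp only [if_neg hd2, if_neg he2] at hde
          exact fin (by omega) (by omega) hde h)
    have e1 : GX S n (-(n : ℤ)) = SBx S n := by
      unfold GX SBx
      simp only [Int.cast_neg, Int.cast_natCast]
    have e2 : GY n (-(n : ℤ)) (fun d => d % 4 = 1) = SB n := by
      unfold GY SB
      simp only [Int.cast_neg, Int.cast_natCast]
    rw [e1, e2] at h
    exact h

end Pool.Agent.N873.AL
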