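import Pool.Agent.N873.AL.Stm
import Pool.Agent.N873.UT.RK

/-!
# Project AL: rank and `Ш` from the 2-Selmer group
Author: helper438, after `Pool.Agent.N873.UT.RK`.
-/

set_option autoImplicit false

open scoped Classical

namespace Pool.Agent.N873.AL.RKX

open WeierstrassCurve
open Pool.Agent.TH841.SH (LocC SelG IsR)
open Pool.Agent.TH841.SH.D (Sha)
open Pool.Agent.N873.UT (EQ)
open Pool.Agent.N873.UT.RK (Dst isR T4 T4_card T4_two)

theorem t_RKX : S_RKX := by
  intro n a b hn ha hb hab N hfin hcard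
  have hd : Dst n a b := by
    refine ⟨?_, ?_, ?_, ?_⟩
    · exact_mod_cast hn
    · exact_mod_cast ha
    · exact_mod_cast hb
    · have h3 : a ^ 2 - b ^ 2 ≠ 0 := sub_ne_zero.2 hab
      exact_mod_cast h3
  have c1 : (0 : ℤ) ≠ n * a ^ 2 := by
    intro h1
    refine mul_ne_zero hd.n0 (pow_ne_zero 2 hd.a0) ?_
    exact_mod_cast h1.symm
  have c2 : (0 : ℤ) ≠ n * b ^ 2 := by
    intro h1
    refine mul_ne_zero hd.n0 (pow_ne_zero 2 hd.b0) ?_
    exact_mod_cast h1.symm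
  have c3 : (n : ℤ) * a ^ 2 ≠ n * b ^ 2 := by
    intro h1
    refine mul_ne_zero hd.n0 hd.ab ?_
    have h2 : (n : ℤ) * (a ^ 2 - b ^ 2) = 0 := by linear_combination h1
    exact_mod_cast h2
  obtain ⟨h1, h2⟩ := Pool.Agent.Y667.SHA.main4 (EQ n a b) 0 (n * a ^ 2) (n * b ^ 2) (isR n a b)
    c1 c2 c3 hfin (T4 hd) (T4_card hd).ge (T4_two hd)
  have h3 := h2.trans hcard
  let e : {x : Pool.Agent.TH841.SH.D.Sha (EQ n a b) // x + x = 0} ≃
      {x : Pool.Agent.W262.SH.Sha (EQ n a b) // x + x = 0} :=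
    { toFun := fun x => ⟨Pool.Agent.TH841.SH.D.eSha (EQ n a b) x.1, by
        rw [← map_add, x.2, map_zero]⟩
      invFun := fun x => ⟨(Pool.Agent.TH841.SH.D.eSha (EQ n a b)).symm x.1, by
        rw [← map_add, x.2, map_zero]⟩
      left_inv := fun x => Subtype.ext (by simp)
      right_inv := fun x => Subtype.ext (by simp) }
  have hce := Nat.card_congr e
  refine ⟨Finite.of_equiv _ e.symm, ?_⟩
  rw [hce]
  have h4 : 4 * (2 ^ Module.finrank ℤ (EQ n a b).toAffine.Point *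
      Nat.card {x : Pool.Agent.W262.SH.Sha (EQ n a b) // x + x = 0}) ≤ 4 * N ^ 2 := by
    calc _ = 2 ^ (Module.finrank ℤ (EQ n a b).toAffine.Point + 2) *
        Nat.card {x : Pool.Agent.W262.SH.Sha (EQ n a b) // x + x = 0} := by ring
      _ ≤ (2 * N) ^ 2 := h3
      _ = 4 * N ^ 2 := by ring
  omega

end Pool.Agent.N873.AL.RKX
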