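import Pool.Agent.N873.AL.Stm
import Pool.Agent.N873.UT.SEL
import Pool.Agent.N873.UT.RAM

/-!
# Project AL (helper873), part SELX: the 2-Selmer group (helper93)
-/

set_option autoImplicit false

namespace Pool.Agent.N873.AL

open Pool.Agent.TH841.SH (LocC SelG)
open Pool.Agent.N873.UT (Pt3)
open Pool.Agent.N875.X15 (even_val val_zero val_one not_dvd_of_even sq_cancel sq_trans closeV val_add_ge)
open Pool.Agent.N873.UT.RAM (core val_neg)
open Pool.Agent.N873.UT.SEL (comb shift shift_u shift_v loc_pt two_sq' cls sqf_uniq sqf sqf_spec)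

namespace SELX

variable {n : ℕ} {a b : ℤ} {S : Finset ℕ}

lemma bad_two (h : Bad S a b) {p : ℕ} (hpS : p ∉ S) : p ≠ 2 := by
  rintro rfl
  exact hpS h.two

lemma bad_sub (h : Bad S a b) : a ^ 2 - b ^ 2 ≠ 0 := sub_ne_zero.2 h.ab

lemma bad_dvd (h : Bad S a b) {p : ℕ} (hp : p.Prime) (hpS : p ∉ S) :
    ¬ (p : ℤ) ∣ a ∧ ¬ (p : ℤ) ∣ b ∧ ¬ (p : ℤ) ∣ a ^ 2 - b ^ 2 := by
  refine ⟨fun h1 => hpS (h.bad p hp ?_), fun h1 => hpS (h.bad p hp ?_),
    fun h1 => hpS (h.bad p hp ?_)⟩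
  · exact dvd_mul_of_dvd_left (dvd_mul_of_dvd_left h1 b) _
  · exact dvd_mul_of_dvd_left (dvd_mul_of_dvd_right h1 a) _
  · exact dvd_mul_of_dvd_right h1 _

/-- the ramified primes -/
lemma ram (hs : Squarefree n) (h : Bad S a b) (p : ℕ) [Fact p.Prime] (hpn : p ∣ n)
    (hpS : p ∉ S) {u v w : ℚ_[p]} (hP : Pt3 n a b u v w) :
    (IsSquare u ∨ IsSquare (u * n)) ∧ (IsSquare u → IsSquare v ∨ IsSquare (v * (-n))) := by
  have hpp : p.Prime := Fact.out
  have hp2 : p ≠ 2 := bad_two h hpS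
  obtain ⟨ha, hb, -⟩ := bad_dvd h hpp hpS
  have hn0 : n ≠ 0 := hs.ne_zero
  have hnc : (n : ℚ_[p]) ≠ 0 := by exact_mod_cast hn0
  have hac : (a : ℚ_[p]) ≠ 0 := by exact_mod_cast h.a0
  have hbc : (b : ℚ_[p]) ≠ 0 := by exact_mod_cast h.b0
  have vn : (n : ℚ_[p]).valuation = 1 := by
    have h1 := val_one (p := p) (n := (n : ℤ)) (by exact_mod_cast hpn)
      (Int.squarefree_natCast.2 hs)
    simpa using h1
  have huv : u - v = (n : ℚ_[p]) * (a : ℚ_[p]) ^ 2 := by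
    have := hP.uv
    push_cast at this
    exact this
  have huw : u - w = (n : ℚ_[p]) * (b : ℚ_[p]) ^ 2 := by
    have := hP.uw
    push_cast at this
    exact this
  rcases core hp2 hP.u0 hP.v0 hP.w0 hP.sq hnc hac hbc huv huw vn (val_zero hb)
    (le_of_eq (val_zero ha).symm) with h1 | h1 | h1
  · exact ⟨Or.inl h1.1, fun _ => Or.inl h1.2.1⟩
  · exact ⟨Or.inl h1.1, fun _ => Or.inr h1.2.1⟩
  · refine ⟨Or.inr h1, fun h2 => ?_⟩
    exfalso
    have h3 := sq_cancel hP.u0 h2 h1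
    have h4 := even_val hnc h3
    rw [vn] at h4
    obtain ⟨r, hr⟩ := h4
    omega

/-- three elements of `ℚ_p` with differences of valuation zero -/
lemma unr0 {p : ℕ} [Fact p.Prime] (hp2 : p ≠ 2) {u v w A B : ℚ_[p]} (hu : u ≠ 0) (hv : v ≠ 0)
    (hw : w ≠ 0) (hA : A ≠ 0) (hB : B ≠ 0) (hAB : A - B ≠ 0) (huv : u - v = A) (huw : u - w = B)
    (vA : A.valuation = 0) (vB : B.valuation = 0) (vC : (A - B).valuation = 0)
    (hs : IsSquare (u * v * w)) : Even u.valuation ∧ Even v.valuation := by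
  have hsum : Even (u.valuation + v.valuation + w.valuation) := by
    have := even_val (mul_ne_zero (mul_ne_zero hu hv) hw) hs
    rwa [Padic.valuation_mul (mul_ne_zero hu hv) hw, Padic.valuation_mul hu hv] at this
  obtain ⟨e, he⟩ := hsum
  have hA' : -A ≠ 0 := neg_ne_zero.2 hA
  have hB' : -B ≠ 0 := neg_ne_zero.2 hB
  have e1 : v - u = -A := by rw [← huv]; ring
  have e2 : w - u = -B := by rw [← huw]; ring
  have e3 : v - -A = u := by rw [← huv]; ring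
  have e4 : w - -B = u := by rw [← huw]; ring
  have e5 : w - (A - B) = v := by rw [← huv, ← huw]; ring
  rcases lt_trichotomy u.valuation 0 with h0 | h0 | h0
  · have c1 := (closeV hp2 hv hu (by rw [e1]; exact hA') (by rw [e1, val_neg, vA]; exact h0)).2
    have c2 := (closeV hp2 hw hu (by rw [e2]; exact hB') (by rw [e2, val_neg, vB]; exact h0)).2
    have h1 : Even u.valuation := by
      rw [Int.even_iff]
      omega
    exact ⟨h1, by rw [c1]; exact h1⟩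
  · refine ⟨by rw [h0]; exact Even.zero, ?_⟩
    have g1 : 0 ≤ v.valuation := by
      have h3 : u + -A = v := by rw [← huv]; ring
      have := val_add_ge (x := u) (y := -A) (by rw [h3]; exact hv) (k := 0) (by rw [h0])
        (by rw [val_neg, vA])
      rwa [h3] at this
    rcases eq_or_lt_of_le g1 with g2 | g2
    · rw [← g2]
      exact Even.zero
    · have c3 := (closeV hp2 hw hAB (by rw [e5]; exact hv) (by rw [e5, vC]; exact g2)).2
      rw [vC] at c3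
      rw [Int.even_iff]
      omega
  · have c1 := (closeV hp2 hv hA' (by rw [e3]; exact hu) (by rw [e3, val_neg, vA]; exact h0)).2
    have c2 := (closeV hp2 hw hB' (by rw [e4]; exact hu) (by rw [e4, val_neg, vB]; exact h0)).2
    rw [val_neg, vA] at c1
    rw [val_neg, vB] at c2
    refine ⟨?_, by rw [c1]; exact Even.zero⟩
    rw [Int.even_iff]
    omega

/-- the other primes -/
lemma unr (h : Bad S a b) (p : ℕ) [Fact p.Prime] (hpn : ¬ p ∣ n)
    (hpS : p ∉ S) {u v w : ℚ_[p]} (hP : Pt3 n a b u v w) :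
    Even u.valuation ∧ Even v.valuation := by
  have hpp : p.Prime := Fact.out
  have hp2 : p ≠ 2 := bad_two h hpS
  obtain ⟨ha, hb, hd⟩ := bad_dvd h hpp hpS
  have hpi : Prime (p : ℤ) := Nat.prime_iff_prime_int.1 hpp
  have hn : ¬ (p : ℤ) ∣ (n : ℤ) := by
    intro h1
    exact hpn (by exact_mod_cast h1)
  have k1 : ¬ (p : ℤ) ∣ (n : ℤ) * a ^ 2 := by
    intro h1
    rcases hpi.dvd_or_dvd h1 with h2 | h2
    · exact hn h2
    · exact ha (hpi.dvd_of_dvd_pow h2)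
  have k2 : ¬ (p : ℤ) ∣ (n : ℤ) * b ^ 2 := by
    intro h1
    rcases hpi.dvd_or_dvd h1 with h2 | h2
    · exact hn h2
    · exact hb (hpi.dvd_of_dvd_pow h2)
  have k3 : ¬ (p : ℤ) ∣ (n : ℤ) * (a ^ 2 - b ^ 2) := by
    intro h1
    rcases hpi.dvd_or_dvd h1 with h2 | h2
    · exact hn h2
    · exact hd h2
  have nz : ∀ {m : ℤ}, ¬ (p : ℤ) ∣ m → (m : ℚ_[p]) ≠ 0 := by
    intro m hm
    have : m ≠ 0 := by
      rintro rfl
      exact hm (dvd_zero _)
    exact_mod_cast this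
  have e0 : (((n : ℤ) * (a ^ 2 - b ^ 2) : ℤ) : ℚ_[p]) =
      (((n : ℤ) * a ^ 2 : ℤ) : ℚ_[p]) - (((n : ℤ) * b ^ 2 : ℤ) : ℚ_[p]) := by
    push_cast
    ring
  refine unr0 hp2 hP.u0 hP.v0 hP.w0 (A := (((n : ℤ) * a ^ 2 : ℤ) : ℚ_[p]))
    (B := (((n : ℤ) * b ^ 2 : ℤ) : ℚ_[p])) (nz k1) (nz k2) ?_ ?_ ?_ (val_zero k1) (val_zero k2)
    ?_ hP.sq
  · rw [← e0]
    exact nz k3
  · rw [hP.uv]
    push_cast
    ring
  · rw [hP.uw]
    push_cast
    ring
  · rw [← e0]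
    exact val_zero k3

/-- the first coordinate -/
lemma fst_mem (hs : Squarefree n) (h : Bad S a b) {d1 d2 : ℤ}
    (hd : (d1, d2) ∈ SelG 0 (n * a ^ 2) (n * b ^ 2)) : d1 ∈ SAx S n := by
  obtain ⟨s1, s2, hr, hp⟩ := hd
  simp only at s1 s2 hr hp
  refine ⟨s1, ?_, ?_⟩
  · intro p hpp hpd
    have : Fact p.Prime := ⟨hpp⟩
    by_contra hcon
    push Not at hcon
    obtain ⟨hpn, hpS⟩ := hcon
    obtain ⟨u, v, w, hP, h1, -⟩ := loc_pt (hp p)
    exact not_dvd_of_even hP.u0 (unr h p hpn hpS hP).1 s1 h1 hpd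
  · intro p hpp hpn hpS
    obtain ⟨u, v, w, hP, h1, -⟩ := loc_pt (hp p)
    rcases (ram hs h p hpn hpS hP).1 with h2 | h2
    · left
      exact sq_cancel hP.u0 h2 h1
    · right
      rw [mul_comm] at h1
      exact sq_trans hP.u0 h1 h2

/-- the quotient of two classes -/
lemma snd_mem (hs : Squarefree n) (h : Bad S a b) {d1 d2 e2 f : ℤ} {r : ℚ}
    (hd : (d1, d2) ∈ SelG 0 (n * a ^ 2) (n * b ^ 2))
    (he : (d1, e2) ∈ SelG 0 (n * a ^ 2) (n * b ^ 2)) (hr : r ≠ 0) (hsf : Squarefree f)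
    (hf : (d2 : ℚ) * e2 = f * r ^ 2) : f ∈ SBx S n := by
  obtain ⟨s1, s2, -, hp⟩ := hd
  obtain ⟨-, s3, -, hp'⟩ := he
  simp only at s1 s2 s3 hp hp'
  have hn0 : n ≠ 0 := hs.ne_zero
  have ha0 := h.a0
  have hab0 := bad_sub h
  -- local data
  have loc : ∀ (p : ℕ) [Fact p.Prime], ∃ u v w u' v' w' : ℚ_[p], Pt3 n a b u v w ∧
      Pt3 n a b u' v' w' ∧ IsSquare (u * u') ∧ IsSquare (v * v' * f) := by
    intro p hpp
    obtain ⟨u, v, w, hP, h1, h2⟩ := loc_pt (hp p)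
    obtain ⟨u', v', w', hP', h1', h2'⟩ := loc_pt (hp' p)
    have hd1 : (d1 : ℚ_[p]) ≠ 0 := by exact_mod_cast s1.ne_zero
    exact ⟨u, v, w, u', v', w', hP, hP', two_sq' hd1 h1 h1', cls hr hf h2 h2'⟩
  have shf : ∀ (p : ℕ) [Fact p.Prime] (u v w u' v' w' : ℚ_[p]), Pt3 n a b u v w →
      Pt3 n a b u' v' w' → IsSquare (v * v' * f) →
      ∃ U V W U' V' W' : ℚ_[p], Pt3 n a b U V W ∧ Pt3 n a b U' V' W' ∧
        IsSquare (U * (u * n)) ∧ IsSquare (U' * (u' * n)) ∧ IsSquare (V * V' * f) := by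
    intro p hpp u v w u' v' w' hP hP' h1
    have hn' : (((n : ℤ)) : ℚ_[p]) ≠ 0 := by exact_mod_cast hn0
    have ha' : (a : ℚ_[p]) ≠ 0 := by exact_mod_cast ha0
    have hab' : (a : ℚ_[p]) ^ 2 - (b : ℚ_[p]) ^ 2 ≠ 0 := by exact_mod_cast hab0
    have q1 := shift_u hP
    have q2 := shift_u hP'
    rw [Int.cast_natCast] at q1 q2
    exact ⟨_, _, _, _, _, _, shift hP hn' ha' hab', shift hP' hn' ha' hab', by
      rw [Int.cast_natCast]; exact q1, by rw [Int.cast_natCast]; exact q2,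
      shift_v hP.v0 hP'.v0 h1⟩
  refine ⟨hsf, ?_, ?_⟩
  · -- the primes not dividing `n`
    intro p hpp hpf
    have : Fact p.Prime := ⟨hpp⟩
    by_contra hcon
    push Not at hcon
    obtain ⟨hpn, hpS⟩ := hcon
    obtain ⟨u, v, w, u', v', w', hP, hP', huu, hvv⟩ := loc p
    refine not_dvd_of_even (mul_ne_zero hP.v0 hP'.v0) ?_ hsf hvv hpf
    rw [Padic.valuation_mul hP.v0 hP'.v0]
    exact (unr h p hpn hpS hP).2.add (unr h p hpn hpS hP').2
  · -- the primes dividing `n`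
    intro p hpp hpn hpS
    obtain ⟨u, v, w, u', v', w', hP, hP', huu, hvv⟩ := loc p
    have hn' : (-(n : ℚ_[p])) ≠ 0 := neg_ne_zero.2 (by exact_mod_cast hn0)
    have fin : ∀ {u v w u' v' w' : ℚ_[p]}, Pt3 n a b u v w → Pt3 n a b u' v' w' →
        IsSquare (v * v' * f) → IsSquare u → IsSquare u' →
        IsSquare (f : ℚ_[p]) ∨ IsSquare ((f : ℚ_[p]) * (-n)) := by
      intro u v w u' v' w' hP hP' hvv c1 c2
      exact comb hn' hP.v0 hP'.v0 ((ram hs h p hpn hpS hP).2 c1)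
        ((ram hs h p hpn hpS hP').2 c2) hvv
    rcases (ram hs h p hpn hpS hP).1 with c1 | c1
    · exact fin hP hP' hvv c1 (sq_cancel hP.u0 c1 huu)
    · obtain ⟨U, V, W, U', V', W', hQ, hQ', g1, g2, g3⟩ := shf p u v w u' v' w' hP hP' hvv
      have hn'' : (n : ℚ_[p]) ≠ 0 := by exact_mod_cast hn0
      have c2 : IsSquare (u' * (n : ℚ_[p])) := by
        have h1 : IsSquare (u' * u) := by rwa [mul_comm]
        exact sq_trans hP.u0 h1 c1
      rw [mul_comm] at g1 g2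
      exact fin hQ hQ' g3 (sq_cancel (mul_ne_zero hP.u0 hn'') c1 g1)
        (sq_cancel (mul_ne_zero hP'.u0 hn'') c2 g2)

end SELX

open SELX in
/-- **AL-SELX.** -/
theorem t_SELX : S_SELX := by
  classical
  intro n a b T hs _ h hA hB
  set S := SelG 0 (n * a ^ 2) (n * b ^ 2) with hS
  -- a chosen second coordinate
  have hch : ∀ d1 : ℤ, ∃ e2 : ℤ, (∃ d2, (d1, d2) ∈ S) → (d1, e2) ∈ S := by
    intro d1
    by_cases hd : ∃ d2, (d1, d2) ∈ S
    · obtain ⟨d2, hd2⟩ := hd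
      exact ⟨d2, fun _ => hd2⟩
    · exact ⟨1, fun h => absurd h hd⟩
  choose e he using hch
  set Φ : ℤ × ℤ → ℤ × ℤ := fun d => (d.1, sqf ((d.2 : ℚ) * e d.1)) with hΦ
  have hne : ∀ d ∈ S, (d.2 : ℚ) * (e d.1 : ℚ) ≠ 0 := by
    intro d hd
    have h1 : (d.1, e d.1) ∈ S := he d.1 ⟨d.2, hd⟩
    have h2 : Squarefree d.2 := hd.2.1
    have h3 : Squarefree (e d.1) := h1.2.1
    exact mul_ne_zero (by exact_mod_cast h2.ne_zero) (by exact_mod_cast h3.ne_zero)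
  have hmaps : ∀ d ∈ S, Φ d ∈ SAx T n ×ˢ SBx T n := by
    intro d hd
    have h1 : (d.1, e d.1) ∈ S := he d.1 ⟨d.2, hd⟩
    obtain ⟨h2, r, hr, h3⟩ := sqf_spec (hne d hd)
    exact Set.mk_mem_prod (fst_mem hs h hd) (snd_mem hs h hd h1 hr h2 h3)
  have hinj : Set.InjOn Φ S := by
    intro d hd d' hd' hdd
    have e1 : (Φ d).1 = (Φ d').1 := congrArg Prod.fst hdd
    have e2 : (Φ d).2 = (Φ d').2 := congrArg Prod.snd hdd
    change d.1 = d'.1 at e1
    change sqf ((d.2 : ℚ) * e d.1) = sqf ((d'.2 : ℚ) * e d'.1) at e2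
    obtain ⟨-, r, hr, h3⟩ := sqf_spec (hne d hd)
    obtain ⟨-, r', hr', h3'⟩ := sqf_spec (hne d' hd')
    rw [← e2, ← e1] at h3'
    have he0 : (e d.1 : ℚ) ≠ 0 := right_ne_zero_of_mul (hne d hd)
    have hsq : IsSquare (((d.2 * d'.2 : ℤ)) : ℚ) := by
      refine ⟨(sqf ((d.2 : ℚ) * e d.1) : ℚ) * r * r' / e d.1, ?_⟩
      have h4 : (d.2 : ℚ) * d'.2 * ((e d.1 : ℚ) * e d.1) =
          (sqf ((d.2 : ℚ) * e d.1) * r ^ 2) * (sqf ((d.2 : ℚ) * e d.1) * r' ^ 2) := by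
        rw [← h3, ← h3']
        ring
      push_cast
      field_simp
      linear_combination h4
    rw [Rat.isSquare_intCast_iff] at hsq
    obtain ⟨s, hs⟩ := hsq
    have e3 : d.2 = d'.2 := sqf_uniq hd.2.1 hd'.2.1 hs
    exact Prod.ext e1 e3
  have hfin : (SAx T n ×ˢ SBx T n).Finite := hA.prod hB
  refine ⟨Set.Finite.of_injOn (fun d hd => hmaps d hd) hinj hfin, ?_⟩
  rw [← Set.ncard_prod]
  exact Set.ncard_le_ncard_of_injOn Φ (fun d hd => hmaps d hd) hinj hfin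

end Pool.Agent.N873.AL
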