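import Pool.Agent.N873.AL.Fin
import Pool.Agent.N873.AL.CX
import Pool.Agent.N873.AL.SELX
import Pool.Agent.N873.AL.RKX

/-! # Project AL: the parts -/

set_option autoImplicit false

namespace Pool.Agent.N873.AL

theorem parts : Parts := ⟨t_CX, t_SELX, RKX.t_RKX⟩

end Pool.Agent.N873.AL
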