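import Mathlib
import Pool.Agent.N873.UT.Stm

/-!
# Project AL (helper873): all the twists of all the curves with a subgroup `Z/2 x Z/4`

`E = EQ n a b : y² = x (x - n a²) (x - n b²)` for all the integers `a`, `b` with `a b (a² - b²) ≠ 0` and all the
squarefree `n ≡ 3` modulo `4`, without local conditions. `S` is a finite set of primes containing `2` and the
primes dividing `a b (a² - b²)`. The 2-Selmer group of `E` is bounded by the groups `SAx S n`, `SBx S n`, and these by
the groups `SA n`, `SB n` of project UT, up to the constant `2 ^ (#S + 1)`.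
The statements are independent of each other.
-/

set_option autoImplicit false
set_option linter.unusedVariables false

open scoped Classical

namespace Pool.Agent.N873.AL

open Finset
open Pool.Agent.TH841.SH (LocC SelG IsR)
open Pool.Agent.TH841.SH.D (Sha)
open Pool.Agent.N873.UT (SA SB EQ Pt3)

/-- the exceptional primes -/
structure Bad (S : Finset ℕ) (a b : ℤ) : Prop where
  pr : ∀ p ∈ S, p.Prime
  two : 2 ∈ S
  a0 : a ≠ 0
  b0 : b ≠ 0
  ab : a ^ 2 ≠ b ^ 2
  bad : ∀ p : ℕ, p.Prime → (p : ℤ) ∣ a * b * (a ^ 2 - b ^ 2) → p ∈ S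

/-- the classes supported in `n` and `S` which are `1` or `n` in `ℚ_p` modulo squares for all `p ∣ n` outside
`S` -/
def SAx (S : Finset ℕ) (n : ℕ) : Set ℤ := {d | Squarefree d ∧
  (∀ p : ℕ, p.Prime → (p : ℤ) ∣ d → p ∣ n ∨ p ∈ S) ∧
  ∀ (p : ℕ) [Fact p.Prime], p ∣ n → p ∉ S → IsSquare (d : ℚ_[p]) ∨ IsSquare ((d : ℚ_[p]) * n)}

/-- the same for `-n` -/
def SBx (S : Finset ℕ) (n : ℕ) : Set ℤ := {d | Squarefree d ∧
  (∀ p : ℕ, p.Prime → (p : ℤ) ∣ d → p ∣ n ∨ p ∈ S) ∧
  ∀ (p : ℕ) [Fact p.Prime], p ∣ n → p ∉ S → IsSquare (d : ℚ_[p]) ∨ IsSquare ((d : ℚ_[p]) * (-n))}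

/-- AL-CX: Two elements `d`, `e` of `SAx S n` with the same sign, the same prime divisors in `S` not dividing `n`, and
the same class modulo squares and `n` in `ℚ_p` for all `p ∈ S` dividing `n` (there are two classes: `p` is odd and
`n` is a uniformizer): the squarefree part of `d e` lies in `SA n` (note `SA n` requires a positive element). So
`SAx S n` is a union of at most `2 ^ (#S + 1)` sets, each of them mapped injectively to `SA n` by `d ↦` the
squarefree part of `d d₀`. For `SBx S n`: the same with the residue of the odd part modulo `4` instead of the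
sign, and `-n` for `n`. The sets are finite: squarefree with prime divisors in a finite set. -/
def S_CX : Prop := ∀ (n : ℕ), Squarefree n → n % 4 = 3 → ∀ S : Finset ℕ, (∀ p ∈ S, p.Prime) → 2 ∈ S →
  ((SAx S n).Finite ∧ (SAx S n).ncard ≤ 2 ^ (S.card + 1) * (SA n).ncard) ∧
  ((SBx S n).Finite ∧ (SBx S n).ncard ≤ 2 ^ (S.card + 1) * (SB n).ncard)

/-- AL-SELX: the 2-Selmer group; see `Pool/Agent/N873/UT/SEL.lean` (`fst_mem`, `snd_mem`, `t_SEL`; here the
argument is the same and much simpler: nothing has to be shown at `2` and at the primes of `S`). The odd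
primes `p ∉ S`, for a local point `Pt3 n a b u v w`: if `p ∤ n` then `u - v`, `u - w`, `v - w` are units, so the
valuations of `u`, `v`, `w` are even (negative ones are equal; otherwise at most one is not zero). If `p ∣ n`:
the three differences have valuation one. `val u ≤ 0`: `v ~ u ~ w`, all squares. `val u > 1`: `v ~ w ~ -n`, so
`u ~ 1`. `val u = 1`: `v - w` has valuation one, so not both `v` and `w` have valuation larger than one, and
not both have valuation one (`u v w` is a square); so one of them has valuation larger than one and `u ~ n`. Hence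
`u ~ 1` or `n`, and if `u` is a square then `v ~ 1` or `-n`. (This is `S_RAM`, where `α = β = 1`.) -/
def S_SELX : Prop := ∀ (n : ℕ) (a b : ℤ) (S : Finset ℕ), Squarefree n → n % 4 = 3 → Bad S a b →
  (SAx S n).Finite → (SBx S n).Finite →
  (SelG 0 (n * a ^ 2) (n * b ^ 2)).Finite ∧
    (SelG 0 (n * a ^ 2) (n * b ^ 2)).ncard ≤ (SAx S n).ncard * (SBx S n).ncard

/-- AL-RKX: rank and `Ш` from the Selmer group: the proof of `Pool.Agent.N873.UT.RK.t_RK`, which uses only that
the roots are different (`Dst n a b`). -/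
def S_RKX : Prop := ∀ (n : ℕ) (a b : ℤ), n ≠ 0 → a ≠ 0 → b ≠ 0 → a ^ 2 ≠ b ^ 2 → ∀ N : ℕ,
  (SelG 0 (n * a ^ 2) (n * b ^ 2)).Finite → (SelG 0 (n * a ^ 2) (n * b ^ 2)).ncard ≤ (2 * N) ^ 2 →
  Finite {x : Sha (EQ n a b) // x + x = 0} ∧
  2 ^ Module.finrank ℤ (EQ n a b).toAffine.Point * Nat.card {x : Sha (EQ n a b) // x + x = 0} ≤ N ^ 2

end Pool.Agent.N873.AL
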