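import Mathlib
import Pool.Agent.N873.AL.Stm
import Pool.Agent.N873.UT.Parts2

/-!
# Project AL (helper873): assembly
-/

set_option autoImplicit false
set_option linter.unusedVariables false

open scoped Classical

namespace Pool.Agent.N873.AL

open Finset Filter NumberField
open Pool.Agent.TH841.SH (SelG)
open Pool.Agent.TH841.SH.D (Sha)
open Pool.Agent.Y703.CQ (nr)
open Pool.Agent.N873.UT (SA SB EQ Em Pt3 r4 gs etaR parts2 t_DMP OkM SM Gr gs_iff exK card_lim')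
open Pool.Agent.N873.UT.TR (card_eqM)

/-- the parts -/
structure Parts : Prop where
  cx : S_CX
  selx : S_SELX
  rkx : S_RKX

/-- the exceptional primes of a set of pairs -/
noncomputable def bad (F : Finset (ℤ × ℤ)) : Finset ℕ :=
  (2 * ∏ c ∈ F, (c.1 * c.2 * (c.1 ^ 2 - c.2 ^ 2)).natAbs).primeFactors

/-- the pairs -/
def Pr (c : ℤ × ℤ) : Prop := c.1 ≠ 0 ∧ c.2 ≠ 0 ∧ c.1 ^ 2 ≠ c.2 ^ 2

theorem ne0 {F : Finset (ℤ × ℤ)} (hF : ∀ c ∈ F, Pr c) :
    2 * ∏ c ∈ F, (c.1 * c.2 * (c.1 ^ 2 - c.2 ^ 2)).natAbs ≠ 0 := by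
  refine mul_ne_zero (by norm_num) (prod_ne_zero_iff.2 fun c hc => ?_)
  obtain ⟨h1, h2, h3⟩ := hF c hc
  rw [Int.natAbs_ne_zero]
  exact mul_ne_zero (mul_ne_zero h1 h2) (sub_ne_zero.2 h3)

theorem bad_of {F : Finset (ℤ × ℤ)} (hF : ∀ c ∈ F, Pr c) {c : ℤ × ℤ} (hc : c ∈ F) :
    Bad (bad F) c.1 c.2 where
  pr := fun p hp => Nat.prime_of_mem_primeFactors hp
  two := Nat.mem_primeFactors.2 ⟨Nat.prime_two, Dvd.intro _ rfl, ne0 hF⟩
  a0 := (hF c hc).1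
  b0 := (hF c hc).2.1
  ab := (hF c hc).2.2
  bad := fun p hp hd => Nat.mem_primeFactors.2 ⟨hp, Dvd.dvd.mul_left
    ((Int.natCast_dvd.1 hd).trans (dvd_prod_of_mem
      (fun c : ℤ × ℤ => (c.1 * c.2 * (c.1 ^ 2 - c.2 ^ 2)).natAbs) hc)) 2, ne0 hF⟩

/-- **the bound** -/
theorem bound (P : Parts) {F : Finset (ℤ × ℤ)} (hF : ∀ c ∈ F, Pr c) {c : ℤ × ℤ} (hc : c ∈ F) {n : ℕ}
    (hn : Squarefree n) (h4 : n % 4 = 3) (K : Type) [Field K] [NumberField K]
    (h2 : Module.finrank ℚ K = 2) (hs : ∃ s : K, s ^ 2 = -(n : K)) :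
    Finite {x : Sha (EQ n c.1 c.2) // x + x = 0} ∧
    2 ^ Module.finrank ℤ (EQ n c.1 c.2).toAffine.Point *
      Nat.card {x : Sha (EQ n c.1 c.2) // x + x = 0} ≤ (2 ^ ((bad F).card + 1) * r4 K) ^ 2 := by
  have hb := bad_of hF hc
  obtain ⟨⟨h3, h5⟩, h6, h7⟩ := P.cx n hn h4 (bad F) hb.pr hb.two
  obtain ⟨h8, h9⟩ := P.selx n c.1 c.2 (bad F) hn h4 hb h3 h6
  refine P.rkx n c.1 c.2 hn.ne_zero hb.a0 hb.b0 hb.ab _ h8 (h9.trans ?_)
  have hA := (parts2.p.ca n hn h4 K h2 hs).2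
  have hB := (parts2.p.cb n hn h4).2
  rw [hB, hA] at h7
  rw [hA] at h5
  calc (SAx (bad F) n).ncard * (SBx (bad F) n).ncard
      ≤ (2 ^ ((bad F).card + 1) * (2 * r4 K)) * (2 ^ ((bad F).card + 1) * (2 * r4 K)) :=
        Nat.mul_le_mul h5 h7
    _ = (2 * (2 ^ ((bad F).card + 1) * r4 K)) ^ 2 := by ring

/-- the class of the odd negative discriminants -/
def T : Set ℕ := {n | Squarefree n ∧ n % 4 = 3}

theorem low : ∃ δ : ℝ, 0 < δ ∧ ∃ X₁ : ℕ, ∀ X : ℕ, X₁ ≤ X →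
    δ * X ≤ (((Icc 1 X).filter fun n => n ∈ T).card : ℝ) := by
  obtain ⟨δ, hδ, X₁, h⟩ := parts2.p.low ∅ (by simp)
  refine ⟨δ, hδ, X₁, fun X hX => (h X hX).trans ?_⟩
  rw [Nat.cast_le]
  refine card_le_card fun n hn => ?_
  rw [mem_filter] at hn ⊢
  refine ⟨hn.1, hn.2.1, ?_⟩
  have := hn.2.2.1
  omega

theorem trr (R : ℕ) (ε : ℝ) (hε : 0 < ε) : ∃ X₀ : ℕ, ∀ X : ℕ, X₀ ≤ X →
    |(((Icc 1 X).filter fun n => n ∈ T ∧ gs n = 2 ^ (R + 1)).card : ℝ) -
      etaR R * (((Icc 1 X).filter fun n => n ∈ T).card : ℝ)| ≤ ε * X := by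
  have hok : OkM 4 {3} := ⟨by norm_num, dvd_rfl, fun a ha => by
    rw [mem_singleton] at ha
    subst ha
    norm_num⟩
  obtain ⟨X₀, hX₀⟩ := t_DMP R 4 {3} hok ε hε
  refine ⟨X₀, fun X hX => ?_⟩
  have h1 := hX₀ X hX
  have e1 := card_eqM hok X (Gr R)
  have e2 := card_eqM hok X (fun _ => True)
  rw [Finset.filter_true] at e2
  simp only [and_true] at e2
  rw [← e1, ← e2] at h1
  have f1 : ((Icc 1 X).filter fun n => n ∈ T ∧ gs n = 2 ^ (R + 1)) =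
      (Icc 1 X).filter fun D => Squarefree D ∧ D % 4 ∈ ({3} : Finset ℕ) ∧ Gr R D.primeFactors := by
    refine filter_congr fun n _ => ?_
    rw [mem_singleton, ← and_assoc]
    rfl
  have f2 : ((Icc 1 X).filter fun n => n ∈ T) =
      (Icc 1 X).filter fun D => Squarefree D ∧ D % 4 ∈ ({3} : Finset ℕ) := by
    refine filter_congr fun n _ => ?_
    rw [mem_singleton]
    rfl
  rw [f1, f2]
  exact h1

/-- **The law of the 4-rank.** -/
theorem law (R : ℕ) :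
    Tendsto (fun X : ℕ => (((Icc 1 X).filter fun n => n ∈ T ∧ gs n = 2 ^ (R + 1)).card : ℝ) /
      (((Icc 1 X).filter fun n => n ∈ T).card : ℝ)) atTop (nhds (etaR R)) := by
  obtain ⟨c, hc, X₁, h1⟩ := low
  exact card_lim' (A := fun X => ((Icc 1 X).filter fun n => n ∈ T ∧ gs n = 2 ^ (R + 1)).card)
    (B := fun X => ((Icc 1 X).filter fun n => n ∈ T).card) hc h1 (trr R)

/-- **The tail.** -/
theorem tail (R : ℕ) (U : Set ℕ) (hU : ∀ n ∈ T, ∀ r ≤ R, gs n = 2 ^ (r + 1) → n ∉ U) (ε : ℝ)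
    (hε : 0 < ε) : ∀ᶠ X : ℕ in atTop, (((Icc 1 X).filter fun n => n ∈ T ∧ n ∈ U).card : ℝ) ≤
      (4 * (1 / 2 : ℝ) ^ (R + 1) ^ 2 + ε) * (((Icc 1 X).filter fun n => n ∈ T).card : ℝ) := by
  obtain ⟨c, hc, X₁, h1⟩ := low
  have hl := tendsto_finsetSum (range (R + 1)) fun r _ => law r
  have hev := hl.eventually (lt_mem_nhds (show ∑ r ∈ range (R + 1), etaR r - ε <
    ∑ r ∈ range (R + 1), etaR r by linarith))
  filter_upwards [hev, eventually_ge_atTop (max X₁ 1)] with X hX hX'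
  have hX1 : X₁ ≤ X := (le_max_left _ _).trans hX'
  have hXp : 1 ≤ X := (le_max_right _ _).trans hX'
  have hXR : (0 : ℝ) < X := by exact_mod_cast hXp
  set B : ℝ := (((Icc 1 X).filter fun n => n ∈ T).card : ℝ) with hB
  have hB0 : 0 < B := lt_of_lt_of_le (by positivity) (h1 X hX1)
  have hsum : (((Icc 1 X).filter fun n => n ∈ T ∧ n ∈ U).card : ℝ) +
      ∑ r ∈ range (R + 1), (((Icc 1 X).filter fun n => n ∈ T ∧ gs n = 2 ^ (r + 1)).card : ℝ) ≤
      B := by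
    rw [hB, ← Nat.cast_sum, ← Nat.cast_add, Nat.cast_le]
    rw [← card_biUnion (s := range (R + 1))
      (t := fun r => (Icc 1 X).filter fun n => n ∈ T ∧ gs n = 2 ^ (r + 1))]
    · rw [← card_union_of_disjoint]
      · refine card_le_card fun n hn => ?_
        rw [mem_union, mem_biUnion] at hn
        rw [mem_filter]
        rcases hn with hn | ⟨r, -, hn⟩
        · rw [mem_filter] at hn
          exact ⟨hn.1, hn.2.1⟩
        · rw [mem_filter] at hn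
          exact ⟨hn.1, hn.2.1⟩
      · rw [Finset.disjoint_left]
        intro n hn hn'
        rw [mem_biUnion] at hn'
        obtain ⟨r, hr, hn'⟩ := hn'
        rw [mem_filter] at hn hn'
        rw [mem_range] at hr
        exact hU n hn.2.1 r (by omega) hn'.2.2 hn.2.2
    · intro r _ r' _ hrr
      rw [Function.onFun, Finset.disjoint_left]
      intro n hn hn'
      rw [mem_filter] at hn hn'
      have h3 : 2 ^ (r + 1) = 2 ^ (r' + 1) := hn.2.2.symm.trans hn'.2.2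
      have := Nat.pow_right_injective (le_refl 2) h3
      exact hrr (by omega)
  have h4 := (parts2.tail R).2
  have h5 : (∑ r ∈ range (R + 1), etaR r - ε) * B ≤
      ∑ r ∈ range (R + 1), (((Icc 1 X).filter fun n => n ∈ T ∧ gs n = 2 ^ (r + 1)).card : ℝ) := by
    rw [← sum_div, lt_div_iff₀ hB0] at hX
    exact hX.le
  have h6 : (1 - ∑ r ∈ range (R + 1), etaR r) * B ≤ (4 * (1 / 2 : ℝ) ^ (R + 1) ^ 2) * B :=
    mul_le_mul_of_nonneg_right h4 hB0.le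
  nlinarith

end Pool.Agent.N873.AL
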